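import Pool.Agent.MP_8be872_ag.H63.SpecA
import Pool.Agent.MP_8be872_ag.H63.Tool

/-! Module K2: weight zero cohomology is computed by invariants. -/

namespace Pool.Agent.MP_8be872_ag.H73

open Finset H63 H63.TL

set_option linter.unusedSectionVars false

section Alg

variable {V ι A : Type} [Fintype V] [DecidableEq V] [DecidableEq ι] [Ring A] [Algebra ℂ A]
  {vert : V → ι} {E : V → V → A} {R : V × V → Prop} [DecidablePred R] {c u : Subtype R → A}

omit [Algebra ℂ A] in
theorem cas_comm {X : A} (h : ∀ a b, vert a = vert b → Commute X (E a b)) :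
    Commute X (casimir vert E) := by
  refine Commute.sum_right _ _ _ fun a _ => Commute.sum_right _ _ _ fun b _ => ?_
  split_ifs with e
  · exact (h a b e).mul_right (h b a e.symm)
  · exact Commute.zero_right _

omit [Algebra ℂ A] in
theorem cas_E (hG : GlRel vert E) {a b : V} (hab : vert a = vert b) :
    Commute (E a b) (casimir vert E) := by
  have h1 : ∀ s t, E a b * (if vert s = vert t then E s t * E t s else 0) -
      (if vert s = vert t then E s t * E t s else 0) * E a b =
      ((if b = s then if vert a = vert t then E a t * E t b else 0 else 0) -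
        if a = s then if vert a = vert t then E a t * E t b else 0 else 0) +
      ((if b = t then if vert s = vert a then E s b * E a s else 0 else 0) -
        if a = t then if vert s = vert a then E s b * E a s else 0 else 0) := by
    intro s t
    by_cases e : vert s = vert t
    · have e1 : E a b * (E s t * E t s) - E s t * E t s * E a b =
          (E a b * E s t - E s t * E a b) * E t s + E s t * (E a b * E t s - E t s * E a b) := by
        noncomm_ring
      have a1 : (if b = s then E a t else 0) * E t s =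
          if b = s then if vert a = vert t then E a t * E t b else 0 else 0 := by
        by_cases h : b = s
        · subst h; simp [hab, e]
        · simp [h]
      have a2 : (if t = a then E s b else 0) * E t s =
          if a = t then if vert s = vert a then E s b * E a s else 0 else 0 := by
        by_cases h : a = t
        · subst h; simp [e]
        · simp [h, Ne.symm h]
      have a3 : E s t * (if b = t then E a s else 0) =
          if b = t then if vert s = vert a then E s b * E a s else 0 else 0 := by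
        by_cases h : b = t
        · subst h; simp [hab, e]
        · simp [h]
      have a4 : E s t * (if s = a then E t b else 0) =
          if a = s then if vert a = vert t then E a t * E t b else 0 else 0 := by
        by_cases h : a = s
        · subst h; simp [e]
        · simp [h, Ne.symm h]
      rw [if_pos e, e1, hG a b s t hab e, hG a b t s hab e.symm, sub_mul, mul_sub, a1, a2, a3, a4]
      abel
    · have a1 : (if b = s then if vert a = vert t then E a t * E t b else 0 else 0) = 0 := by
        by_cases h : b = s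
        · subst h; simp [hab, e]
        · simp [h]
      have a2 : (if a = t then if vert s = vert a then E s b * E a s else 0 else 0) = 0 := by
        by_cases h : a = t
        · subst h; simp [e]
        · simp [h]
      have a3 : (if b = t then if vert s = vert a then E s b * E a s else 0 else 0) = 0 := by
        by_cases h : b = t
        · subst h; simp [hab, e]
        · simp [h]
      have a4 : (if a = s then if vert a = vert t then E a t * E t b else 0 else 0) = 0 := by
        by_cases h : a = s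
        · subst h; simp [e]
        · simp [h]
      rw [if_neg e, a1, a2, a3, a4]
      simp
  refine sub_eq_zero.1 ?_
  rw [casimir, mul_sum, sum_mul, ← sum_sub_distrib]
  simp only [mul_sum, sum_mul, ← sum_sub_distrib, h1]
  simp [sum_add_distrib, sum_sub_distrib]

omit [Fintype V] in
theorem ucu (hC : Car R E c u) (r : Subtype R) : u r * (c r * u r) = u r := by
  have h1 : u r * u r = 0 := by
    have h2 : (2 : ℂ) • (u r * u r) = 0 := by
      rw [two_smul]
      exact add_eq_zero_iff_eq_neg.2 (hC.uu r r)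
    simpa using congrArg (fun x => (2 : ℂ)⁻¹ • x) h2
  have h3 := hC.uc r r
  rw [if_pos rfl] at h3
  rw [← mul_assoc, eq_sub_of_add_eq h3, sub_mul, mul_assoc, h1, mul_zero, sub_zero, one_mul]

/-- `X` has weight `w` for `T`. -/
def Wt (T X : A) (w : ℂ) : Prop := T * X = X * T + w • X

theorem Wt.mul {T X Y : A} {w w' : ℂ} (h : Wt T X w) (h' : Wt T Y w') :
    Wt T (X * Y) (w + w') := by
  unfold Wt at *
  rw [← mul_assoc, h, add_mul, mul_assoc, h', mul_add, add_smul, mul_assoc]
  simp only [mul_smul_comm, smul_mul_assoc]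
  abel

theorem Wt.add {T T' X : A} {w w' : ℂ} (h : Wt T X w) (h' : Wt T' X w') :
    Wt (T + T') X (w + w') := by
  unfold Wt at *
  rw [add_mul, h, h', mul_add, add_smul]
  abel

theorem Wt.smul {T X : A} {w : ℂ} (h : Wt T X w) (k : ℂ) : Wt (k • T) X (k * w) := by
  unfold Wt at *
  rw [smul_mul_assoc, h, mul_smul_comm, smul_add, mul_smul]

theorem Wt.sum {κ : Type} {T : κ → A} {X : A} {w : κ → ℂ} (s : Finset κ)
    (h : ∀ i ∈ s, Wt (T i) X (w i)) : Wt (∑ i ∈ s, T i) X (∑ i ∈ s, w i) := by
  unfold Wt at *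
  rw [sum_mul, mul_sum, sum_smul, ← sum_add_distrib]
  exact sum_congr rfl h

theorem Wt.commute {T X : A} {w : ℂ} (h : Wt T X w) (hw : w = 0) : Commute T X := by
  unfold Wt at h
  rwa [hw, zero_smul, add_zero] at h

theorem Wt.of_commute {T X : A} (h : Commute T X) : Wt T X 0 := by
  rw [Wt, zero_smul, add_zero]; exact h

omit [Fintype V] in
theorem wt_nu (hC : Car R E c u) (s r : Subtype R) :
    Wt (c s * u s) (u r) (-if r = s then 1 else 0) := by
  have h := hC.uc r s
  rw [Wt, mul_assoc, hC.uu s r, ← mul_assoc (u r), eq_sub_of_add_eq h]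
  split_ifs with e
  · subst e
    simp only [neg_smul, one_smul]
    noncomm_ring
  · simp only [neg_zero, zero_smul]
    noncomm_ring

omit [Fintype V] in
theorem wt_nc (hC : Car R E c u) (s r : Subtype R) :
    Wt (c s * u s) (c r) (if s = r then 1 else 0) := by
  have h := hC.uc s r
  rw [Wt, mul_assoc, eq_sub_of_add_eq h, ← mul_assoc (c r), hC.cc r s]
  split_ifs with e
  · subst e
    simp only [one_smul]
    noncomm_ring
  · simp only [zero_smul]
    noncomm_ring

/-- The weight of a root. -/
noncomputable def wt (a : V) (r : Subtype R) : ℂ :=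
  (if r.1.2 = a then 1 else 0) - if r.1.1 = a then 1 else 0

theorem totW_eq (a : V) : totW R E c u a = E a a + ∑ r : Subtype R, wt a r • (c r * u r) := by
  rw [totW]
  congr 1
  refine sum_congr rfl fun r _ => ?_
  rw [wt, sub_smul]
  simp only [ite_smul, one_smul, zero_smul]

theorem wt_u (hC : Car R E c u) (a : V) (r : Subtype R) : Wt (totW R E c u a) (u r) (-wt a r) := by
  have h := (Wt.of_commute (hC.Eu a a r)).add
    (Wt.sum univ fun s _ => (wt_nu hC s r).smul (wt a s))
  rw [totW_eq]
  simpa using h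

theorem wt_c (hC : Car R E c u) (a : V) (r : Subtype R) : Wt (totW R E c u a) (c r) (wt a r) := by
  have h := (Wt.of_commute (hC.Ec a a r)).add
    (Wt.sum univ fun s _ => (wt_nc hC s r).smul (wt a s))
  rw [totW_eq]
  simpa using h

theorem wt_E (hG : GlRel vert E) (hC : Car R E c u) (a : V) {s t : V} (h : vert s = vert t) :
    Wt (totW R E c u a) (E s t) ((if s = a then 1 else 0) - if t = a then 1 else 0) := by
  have h1 : Wt (E a a) (E s t) ((if s = a then 1 else 0) - if t = a then 1 else 0) := by
    rw [Wt, ← sub_eq_iff_eq_add', hG a a s t rfl h, sub_smul]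
    congr 1
    · by_cases e : a = s
      · subst e; simp
      · simp [e, Ne.symm e]
    · by_cases e : t = a
      · subst e; simp
      · simp [e]
  have h2 := h1.add (Wt.sum univ fun r _ => (Wt.of_commute
    ((Commute.mul_right (hC.Ec s t r) (hC.Eu s t r)).symm)).smul (wt a r))
  rw [totW_eq]
  simpa using h2

theorem totW_ceH (hG : GlRel vert E) (hC : Car R E c u)
    (hR : ∀ r : Subtype R, vert r.1.1 = vert r.1.2) (a : V) :
    Commute (totW R E c u a) (ceH R E c u) := by
  refine Commute.sub_right (Commute.sum_right _ _ _ fun r _ => ?_)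
    (Commute.sum_right _ _ _ fun r _ => Commute.sum_right _ _ _ fun r' _ =>
      Commute.sum_right _ _ _ fun r'' _ => ?_)
  · exact ((wt_u hC a r).mul (wt_E hG hC a (hR r).symm)).commute (by rw [wt]; ring)
  · split_ifs with e
    · refine (((wt_c hC a r'').mul (wt_u hC a r')).mul (wt_u hC a r)).commute ?_
      simp only [wt, e.1, e.2]
      ring
    · exact Commute.zero_right _

omit [Algebra ℂ A] in
theorem comm_ceD {X : A} (hR : ∀ r : Subtype R, vert r.1.1 = vert r.1.2)
    (hE : ∀ a b, vert a = vert b → Commute X (E a b)) (hc : ∀ r, Commute X (c r))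
    (hu : ∀ r, Commute X (u r)) : Commute X (ceD R E c u) := by
  refine Commute.sub_right (Commute.sum_right _ _ _ fun r _ => (hc r).mul_right (hE _ _ (hR r)))
    (Commute.sum_right _ _ _ fun r _ => Commute.sum_right _ _ _ fun r' _ =>
      Commute.sum_right _ _ _ fun r'' _ => ?_)
  split_ifs
  · exact ((hc r).mul_right (hc r')).mul_right (hu r'')
  · exact Commute.zero_right _

omit [Algebra ℂ A] in
theorem anti_ceH {X : A} (hR : ∀ r : Subtype R, vert r.1.1 = vert r.1.2)
    (hE : ∀ a b, vert a = vert b → X * E a b = E a b * X) (hc : ∀ r, X * c r = -(c r * X))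
    (hu : ∀ r, X * u r = -(u r * X)) : X * ceH R E c u + ceH R E c u * X = 0 := by
  have h1 : ∀ r : Subtype R, X * (u r * E r.1.2 r.1.1) + u r * E r.1.2 r.1.1 * X = 0 := by
    intro r
    rw [← mul_assoc, hu, neg_mul, mul_assoc, hE _ _ (hR r).symm, mul_assoc, neg_add_cancel]
  have h2 : ∀ (r r' r'' : Subtype R) (P : Prop) [Decidable P],
      X * (if P then c r'' * u r' * u r else 0) + (if P then c r'' * u r' * u r else 0) * X = 0 := by
    intro r r' r'' P _
    split_ifs
    · rw [← mul_assoc, ← mul_assoc, hc, neg_mul, neg_mul, mul_assoc (c r''), hu, mul_neg, neg_mul,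
        neg_neg, mul_assoc (c r''), mul_assoc (u r'), hu]
      noncomm_ring
    · simp
  rw [ceH, mul_sub, sub_mul, sub_add_sub_comm]
  simp only [mul_sum, sum_mul, ← sum_add_distrib, h1, h2, sum_const_zero, sub_zero]

theorem comm_aeval {X Ω : A} (h : Commute X Ω) (P : Polynomial ℂ) :
    Commute X (Polynomial.aeval Ω P) := by
  induction P using Polynomial.induction_on' with
  | add p q hp hq => rw [map_add]; exact hp.add_right hq
  | monomial n a =>
    rw [Polynomial.aeval_monomial, ← Algebra.smul_def]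
    exact (h.pow_right n).smul_right a

end Alg

section Mod

variable {M : Type} [AddCommGroup M] [Module ℂ M]

theorem idem_zero {κ : Type} [DecidableEq κ] (n : κ → Module.End ℂ M) (w : κ → ℕ)
    (hi : ∀ r, n r * n r = n r) (hc : ∀ r s, Commute (n r) (n s)) (s : Finset κ) :
    ∀ (l : ℕ) (y : M), 0 < l → ∑ r ∈ s, (w r : ℂ) • n r y + (l : ℂ) • y = 0 → y = 0 := by
  induction s using Finset.induction_on with
  | empty =>
    intro l y hl h
    simpa [hl.ne'] using h
  | insert a s ha ih =>
    intro l y hl h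
    rw [sum_insert ha] at h
    have h1 : n a y = 0 := by
      refine ih (w a + l) _ (by omega) ?_
      have h2 := congrArg (n a) h
      simp only [map_add, map_sum, map_smul, map_zero] at h2
      rw [← Module.End.mul_apply, hi] at h2
      rw [← h2, Nat.cast_add, add_smul, ← add_assoc, add_comm _ ((w a : ℂ) • n a y)]
      congr 2
      exact sum_congr rfl fun r _ => by
        rw [← Module.End.mul_apply, ← Module.End.mul_apply, (hc r a).eq]
    rw [h1, smul_zero, zero_add] at h
    exact ih l y hl h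

theorem idem_zero' {κ : Type} [Fintype κ] [DecidableEq κ] (n : κ → Module.End ℂ M) (w : κ → ℕ)
    (hi : ∀ r, n r * n r = n r) (hc : ∀ r s, Commute (n r) (n s)) (hw : ∀ r, 0 < w r) (y : M)
    (h : ∑ r, (w r : ℂ) • n r y = 0) (a : κ) : n a y = 0 := by
  refine idem_zero n w hi hc (univ.erase a) (w a) _ (hw a) ?_
  have h2 := congrArg (n a) h
  rw [← sum_erase_add _ _ (mem_univ a)] at h2
  simp only [map_add, map_sum, map_smul, map_zero] at h2
  rw [← Module.End.mul_apply (n a) (n a), hi] at h2
  rw [← h2]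
  congr 1
  exact sum_congr rfl fun r _ => by
    rw [← Module.End.mul_apply, ← Module.End.mul_apply, (hc r a).eq]

variable {V ι : Type} [Fintype V] [DecidableEq V] [DecidableEq ι] {vert : V → ι}
  {E : V → V → Module.End ℂ M} {R : V × V → Prop} [DecidablePred R]
  {c u : Subtype R → Module.End ℂ M}

theorem u_zero (hC : Car R E c u) (key : V → ℕ) (hk : ∀ r : Subtype R, key r.1.2 < key r.1.1)
    (y : M) (h0 : ∀ a, E a a y = 0) (h : ∀ a, totW R E c u a y = 0) (r : Subtype R) :
    u r y = 0 := by
  have h1 : ∀ r s, Commute (c r * u r) (c s * u s) := fun r s =>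
    ((wt_nc hC r s).mul (wt_nu hC r s)).commute (by simp [eq_comm])
  have h2 : ∑ r : Subtype R, ((key r.1.1 - key r.1.2 : ℕ) : ℂ) • (c r * u r) y = 0 := by
    have h3 : ∑ a, (key a : ℂ) • totW R E c u a y = 0 := by simp [h]
    simp only [totW_eq, LinearMap.add_apply, h0, zero_add, LinearMap.sum_apply,
      LinearMap.smul_apply, smul_sum, smul_smul] at h3
    rw [sum_comm] at h3
    rw [← neg_eq_zero, ← h3, ← sum_neg_distrib]
    refine sum_congr rfl fun r _ => ?_
    rw [← sum_smul, ← neg_smul, Nat.cast_sub (hk r).le]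
    congr 1
    simp [wt, mul_sub, sum_sub_distrib]
  have h4 := idem_zero' (fun r => c r * u r) _ (fun r => by rw [mul_assoc, ucu hC]) h1
    (fun r => Nat.sub_pos_of_lt (hk r)) y h2 r
  rw [← ucu hC r, Module.End.mul_apply, h4, map_zero]

theorem cas_mem {S S' : Submodule ℂ M} {x : M} (h : ∀ a b, vert a = vert b → E a b x ∈ S)
    (h' : ∀ y ∈ S, ∀ a b, vert a = vert b → E a b y ∈ S') : casimir vert E x ∈ S' := by
  simp only [casimir, LinearMap.sum_apply]
  refine sum_mem fun a _ => sum_mem fun b _ => ?_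
  split_ifs with e
  · exact h' _ (h b a e.symm) a b e
  · exact zero_mem _

theorem ceH_mem (hR : ∀ r : Subtype R, vert r.1.1 = vert r.1.2) {S S' : Submodule ℂ M}
    (hE : ∀ x ∈ S, ∀ a b, vert a = vert b → E a b x ∈ S) (h1 : ∀ x ∈ S, ∀ r, u r x ∈ S')
    (h2 : ∀ x ∈ S', ∀ r, u r x ∈ S) (h3 : ∀ x ∈ S, ∀ r, c r x ∈ S') {x : M} (hx : x ∈ S) :
    ceH R E c u x ∈ S' := by
  simp only [ceH, LinearMap.sub_apply, LinearMap.sum_apply]
  refine sub_mem (sum_mem fun r _ => h1 _ (hE x hx _ _ (hR r).symm) r)
    (sum_mem fun r _ => sum_mem fun r' _ => sum_mem fun r'' _ => ?_)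
  split_ifs
  · exact h3 _ (h2 _ (h1 x hx r) r') r''
  · exact zero_mem _

theorem ceD_mem (hR : ∀ r : Subtype R, vert r.1.1 = vert r.1.2) {B : Submodule ℂ M} {x : M}
    (hE : ∀ a b, vert a = vert b → E a b x ∈ B) (hu : ∀ r, u r x = 0)
    (hc : ∀ x ∈ B, ∀ r, c r x ∈ B) : ceD R E c u x ∈ B := by
  simp only [ceD, LinearMap.sub_apply, LinearMap.sum_apply]
  refine sub_mem (sum_mem fun r _ => hc _ (hE _ _ (hR r)) r)
    (sum_mem fun r _ => sum_mem fun r' _ => sum_mem fun r'' _ => ?_)
  split_ifs
  · rw [Module.End.mul_apply, hu, map_zero]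
    exact zero_mem _
  · exact zero_mem _

theorem aeval_split (Ω : Module.End ℂ M) {P : Polynomial ℂ} (hP : P.eval 0 = 1) :
    Polynomial.aeval Ω P = Ω * Polynomial.aeval Ω P.divX + 1 := by
  conv_lhs => rw [← P.X_mul_divX_add]
  rw [map_add, map_mul, Polynomial.aeval_X, Polynomial.coeff_zero_eq_eval_zero, hP, map_one,
    map_one]

end Mod

theorem k2 : K0Stmt → K1Stmt → K2Stmt := by
  intro h0 h1 V ι M _ _ _ _ _ vert key R _ E c u D₀ W B hkey hR hG hC hL hDE hDc hDu hW hB Z Z'
    hZ hZ' cx cx' n
  have hR1 : ∀ r : Subtype R, vert r.1.1 = vert r.1.2 := fun r => ((hR _ _).1 r.2).1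
  have hR2 : ∀ r : Subtype R, key r.1.2 < key r.1.1 := fun r => ((hR _ _).1 r.2).2
  have hK := h1 V ι _ vert key R E c u hkey hR hG hC
  set Ω := casimir vert E with hΩ
  set D := D₀ + ceD R E c u with hD
  have cE : ∀ a b, vert a = vert b → Commute Ω (E a b) := fun a b e => (cas_E hG e).symm
  have cc : ∀ r, Commute Ω (c r) := fun r =>
    (cas_comm fun a b _ => Commute.symm (hC.Ec a b r)).symm
  have cu : ∀ r, Commute Ω (u r) := fun r =>
    (cas_comm fun a b _ => Commute.symm (hC.Eu a b r)).symm
  have cD : Commute D Ω := (cas_comm hDE).add_left (comm_ceD hR1 cE cc cu).symm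
  have cT : ∀ a, Commute (totW R E c u a) Ω := fun a => by
    rw [totW_eq]
    exact ((cE a a rfl).add_right (Commute.sum_right _ _ _ fun r _ =>
      ((cc r).mul_right (cu r)).smul_right _)).symm
  have pB : ∀ (P : Polynomial ℂ), ∀ x ∈ B, Polynomial.aeval Ω P x ∈ B := fun P x hx =>
    Polynomial.aeval_apply_smul_mem_of_le_comap hx P Ω fun y hy =>
      cas_mem (hB y hy).1 fun z hz => (hB z hz).1
  have pZ : ∀ (P : Polynomial ℂ) p, ∀ x ∈ Z p, Polynomial.aeval Ω P x ∈ Z p := fun P p x hx => by
    refine Polynomial.aeval_apply_smul_mem_of_le_comap hx P Ω fun y hy => ?_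
    obtain ⟨a1, a2⟩ := (hZ p y).1 hy
    refine (hZ p _).2 ⟨cas_mem (hW p y a1).1 fun z hz => (hW p z hz).1, fun a => ?_⟩
    rw [← Module.End.mul_apply, (cT a).eq, Module.End.mul_apply, a2, map_zero]
  have pD : ∀ (P : Polynomial ℂ) x, D (Polynomial.aeval Ω P x) = Polynomial.aeval Ω P (D x) :=
    fun P x => LinearMap.congr_fun (comm_aeval cD P).eq x
  have inv : ∀ p, ∀ y ∈ Z p, (∀ a b, vert a = vert b → E a b y = 0) → y ∈ Z' p := by
    intro p y hy hE
    obtain ⟨a1, a2⟩ := (hZ p y).1 hy
    exact (hZ' p y).2 ⟨a1, u_zero hC key hR2 y (fun a => hE a a rfl) a2, fun a => hE a a rfl,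
      fun a b e => by rw [hE a b e]; exact zero_mem _⟩
  have le : ∀ p, ∀ x ∈ Z' p, x ∈ Z p := by
    intro p x hx
    obtain ⟨a1, a2, a3, -⟩ := (hZ' p x).1 hx
    exact (hZ p x).2 ⟨a1, fun a => by simp [totW_eq, a2, a3]⟩
  have dd : ∀ p, ∀ x ∈ Z' p, D x - D₀ x ∈ B := by
    intro p x hx
    obtain ⟨-, a2, -, a4⟩ := (hZ' p x).1 hx
    rw [hD, LinearMap.add_apply, add_sub_cancel_left]
    exact ceD_mem hR1 a4 a2 fun y hy r => ((hB y hy).2.2 r).1
  have lap : ∀ p, ∀ z ∈ Z p, Ω z = (2 : ℂ) • (D (ceH R E c u z) + ceH R E c u (D z)) := by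
    intro p z hz
    have a2 := ((hZ p z).1 hz).2
    have e1 := LinearMap.congr_fun hK z
    have e2 := LinearMap.congr_fun (anti_ceH hR1 hDE hDc hDu) z
    simp only [LinearMap.smul_apply, LinearMap.add_apply, LinearMap.sub_apply,
      LinearMap.sum_apply, Module.End.mul_apply, a2, map_zero, sum_const_zero, sub_zero,
      LinearMap.zero_apply] at e1 e2
    rw [← e1, hD, LinearMap.add_apply, LinearMap.add_apply, map_add, add_add_add_comm, e2,
      zero_add]
  have hZ2 : ∀ p, ∀ z ∈ Z p, ceH R E c u z ∈ Z (!p) := by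
    intro p z hz
    obtain ⟨a1, a2⟩ := (hZ p z).1 hz
    refine (hZ _ _).2 ⟨ceH_mem hR1 (fun x hx => (hW p x hx).1) (fun x hx r => ((hW p x hx).2.2 r).2)
      (fun x hx r => by simpa using ((hW _ x hx).2.2 r).2) (fun x hx r => ((hW p x hx).2.2 r).1) a1,
      fun a => ?_⟩
    rw [← Module.End.mul_apply, (totW_ceH hG hC hR1 a).eq, Module.End.mul_apply, a2, map_zero]
  have hc : ChMap LinearMap.id false D₀ Z' B D Z B := by
    refine ⟨cx', cx, fun p x hx => ⟨x, by simpa using le p x hx, by simp⟩, fun p x _ hb => hb,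
      fun p => ⟨1, one_ne_zero, fun x hx y hy hxy => ?_⟩⟩
    rw [Bool.xor_false] at hy
    have a1 := cx.mapB p _ (sub_mem (le p x hx) hy) hxy
    refine of_eq (sub_mem a1 (dd p x hx)) ?_
    rw [map_sub, one_smul, LinearMap.id_apply]
    abel
  refine ((hc.qis (fun p x hx hd => ?_) fun p x' hx' _ ⟨y, hy, hxy⟩ => ?_).1 n).symm
  · rw [Bool.xor_false] at hx ⊢
    obtain ⟨P, hP, hPE⟩ := h0 V ι M vert E hG hL x
    have a1 := inv p _ (pZ P p x hx) hPE
    have a2 := pZ P.divX p x hx
    refine ⟨_, a1, of_sub' (dd p _ a1) (by rw [pD]; exact pB P _ hd),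
      -((2 : ℂ) • ceH R E c u (Polynomial.aeval Ω P.divX x)),
      neg_mem (Submodule.smul_mem _ _ (hZ2 p _ a2)), ?_⟩
    have a3 : ceH R E c u (D (Polynomial.aeval Ω P.divX x)) ∈ B :=
      ceH_mem hR1 (fun x hx => (hB x hx).1) (fun x hx r => ((hB x hx).2.2 r).2)
        (fun x hx r => ((hB x hx).2.2 r).2) (fun x hx r => ((hB x hx).2.2 r).1)
        (by rw [pD]; exact pB _ _ hd)
    refine of_eq (neg_mem (B.smul_mem 2 a3)) ?_
    rw [LinearMap.id_apply, aeval_split Ω hP, LinearMap.add_apply, Module.End.mul_apply,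
      lap p _ a2, map_neg, map_smul, smul_add, Module.End.one_apply]
    abel
  · rw [Bool.xor_false] at hy
    obtain ⟨P, hP, hPE⟩ := h0 V ι M vert E hG hL y
    have a1 := inv _ _ (pZ P _ y hy) hPE
    have a2 : Ω x' ∈ B := cas_mem ((hZ' p x').1 hx').2.2.2 fun z hz => (hB z hz).1
    have a3 := pB P _ hxy
    rw [map_sub, ← pD, LinearMap.id_apply, aeval_split Ω hP, LinearMap.add_apply,
      (comm_aeval (Commute.refl Ω) _).eq, Module.End.mul_apply, Module.End.one_apply,
      ← (comm_aeval (Commute.refl Ω) _).eq, ← aeval_split Ω hP] at a3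
    refine ⟨_, a1, of_eq (add_mem (sub_mem a3 (pB P.divX _ a2)) (dd _ _ a1)) ?_⟩
    abel

end Pool.Agent.MP_8be872_ag.H73
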